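import Mathlib
set_option autoImplicit false
open scoped InnerProductSpace
open Module

namespace Pool.Agent.H632.MC

variable {E : Type*} [NormedAddCommGroup E] [InnerProductSpace ℂ E] [FiniteDimensional ℂ E]
variable {F : Type*} [NormedAddCommGroup F] [InnerProductSpace ℂ F] [FiniteDimensional ℂ F]

theorem form_expand {n : ℕ} (hn : finrank ℂ E = n) {T : E →ₗ[ℂ] E} (hT : T.IsSymmetric) (v : E) :
    (⟪v, T v⟫_ℂ).re = ∑ j, hT.eigenvalues hn j * ‖⟪hT.eigenvectorBasis hn j, v⟫_ℂ‖ ^ 2 := by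
  rw [← (hT.eigenvectorBasis hn).sum_inner_mul_inner v (T v), Complex.re_sum]
  refine Finset.sum_congr rfl fun j _ => ?_
  rw [← hT (hT.eigenvectorBasis hn j) v, hT.apply_eigenvectorBasis hn j, inner_smul_left,
    ← inner_conj_symm v]
  have h1 : (starRingEnd ℂ) ((hT.eigenvalues hn j : ℝ) : ℂ) = ((hT.eigenvalues hn j : ℝ) : ℂ) :=
    Complex.conj_ofReal _
  have h2 : ((starRingEnd ℂ) ⟪(hT.eigenvectorBasis hn) j, v⟫_ℂ *
      ((starRingEnd ℂ) ((hT.eigenvalues hn j : ℝ) : ℂ) * ⟪(hT.eigenvectorBasis hn) j, v⟫_ℂ)) =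
      (((hT.eigenvalues hn j) * ‖⟪hT.eigenvectorBasis hn j, v⟫_ℂ‖ ^ 2 : ℝ) : ℂ) := by
    rw [h1]
    have h3 := Complex.conj_mul' (⟪(hT.eigenvectorBasis hn) j, v⟫_ℂ)
    push_cast
    rw [← h3]
    ring
  have h4 := congrArg Complex.re h2
  rw [Complex.ofReal_re] at h4
  exact h4

theorem norm_expand {n : ℕ} (hn : finrank ℂ E = n) {T : E →ₗ[ℂ] E} (hT : T.IsSymmetric) (v : E) :
    ‖v‖ ^ 2 = ∑ j, ‖⟪hT.eigenvectorBasis hn j, v⟫_ℂ‖ ^ 2 :=
  ((hT.eigenvectorBasis hn).sum_sq_norm_inner_right v).symm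

/-- coordinates along a family of vectors -/
noncomputable def co {r : ℕ} (g : Fin r → E) : E →ₗ[ℂ] (Fin r → ℂ) :=
  LinearMap.pi fun l => (innerₛₗ ℂ (g l))

theorem co_apply {r : ℕ} (g : Fin r → E) (v : E) (l : Fin r) : co g v l = ⟪g l, v⟫_ℂ := by
  simp [co]

theorem finrank_ker_ge {G : Type*} [AddCommGroup G] [Module ℂ G] [FiniteDimensional ℂ G]
    (φ : E →ₗ[ℂ] G) : finrank ℂ E ≤ finrank ℂ (LinearMap.ker φ) + finrank ℂ G := by
  have h1 := LinearMap.finrank_range_add_finrank_ker φ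
  have h2 := Submodule.finrank_le (LinearMap.range φ)
  omega

theorem ev_ge {n : ℕ} (hn : finrank ℂ E = n) {T : E →ₗ[ℂ] E} (hT : T.IsSymmetric)
    (V : Submodule ℂ E) (i : Fin n) (hi : i.val < finrank ℂ V) (c : ℝ)
    (h : ∀ v ∈ V, c * ‖v‖ ^ 2 ≤ (⟪v, T v⟫_ℂ).re) : c ≤ hT.eigenvalues hn i := by
  set b := hT.eigenvectorBasis hn with hb
  let φ : V →ₗ[ℂ] (Fin i.val → ℂ) :=
    (co fun l : Fin i.val => b ⟨l.val, l.isLt.trans i.isLt⟩) ∘ₗ V.subtype
  have hk : LinearMap.ker φ ≠ ⊥ := by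
    apply LinearMap.ker_ne_bot_of_finrank_lt
    simpa using hi
  obtain ⟨w, hw, hw0⟩ := Submodule.exists_mem_ne_zero_of_ne_bot hk
  have hv0 : (w : E) ≠ 0 := fun h0 => hw0 (Subtype.ext h0)
  have hz : ∀ j : Fin n, j < i → ⟪b j, (w : E)⟫_ℂ = 0 := by
    intro j hj
    have := congrFun (LinearMap.mem_ker.mp hw) ⟨j.val, hj⟩
    simpa [φ, co_apply] using this
  have h1 := h w w.2
  rw [form_expand hn hT] at h1
  have h2 : ∑ j, hT.eigenvalues hn j * ‖⟪hT.eigenvectorBasis hn j, (w : E)⟫_ℂ‖ ^ 2 ≤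
      hT.eigenvalues hn i * ‖(w : E)‖ ^ 2 := by
    rw [norm_expand hn hT (w : E), Finset.mul_sum]
    refine Finset.sum_le_sum fun j _ => ?_
    rcases lt_or_ge j i with hji | hji
    · rw [← hb, hz j hji]; simp
    · exact mul_le_mul_of_nonneg_right (hT.eigenvalues_antitone hn hji) (by positivity)
  have h3 : 0 < ‖(w : E)‖ ^ 2 := by positivity
  exact le_of_mul_le_mul_right (h1.trans h2) h3

theorem ev_le {n : ℕ} (hn : finrank ℂ E = n) {T : E →ₗ[ℂ] E} (hT : T.IsSymmetric)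
    (V : Submodule ℂ E) (i : Fin n) (hi : n ≤ finrank ℂ V + i.val) (c : ℝ)
    (h : ∀ v ∈ V, (⟪v, T v⟫_ℂ).re ≤ c * ‖v‖ ^ 2) : hT.eigenvalues hn i ≤ c := by
  set b := hT.eigenvectorBasis hn with hb
  let φ : V →ₗ[ℂ] (Fin (n - 1 - i.val) → ℂ) :=
    (co fun l : Fin (n - 1 - i.val) => b ⟨i.val + 1 + l.val, by have := l.isLt; omega⟩) ∘ₗ V.subtype
  have hk : LinearMap.ker φ ≠ ⊥ := by
    apply LinearMap.ker_ne_bot_of_finrank_lt
    have := i.isLt
    simp only [finrank_fintype_fun_eq_card, Fintype.card_fin]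
    omega
  obtain ⟨w, hw, hw0⟩ := Submodule.exists_mem_ne_zero_of_ne_bot hk
  have hv0 : (w : E) ≠ 0 := fun h0 => hw0 (Subtype.ext h0)
  have hz : ∀ j : Fin n, i < j → ⟪b j, (w : E)⟫_ℂ = 0 := by
    intro j hj
    have hj' : i.val < j.val := hj
    have hjl := j.isLt
    have := congrFun (LinearMap.mem_ker.mp hw) ⟨j.val - (i.val + 1), by omega⟩
    simp only [φ, LinearMap.comp_apply, co_apply, Submodule.subtype_apply, Pi.zero_apply] at this
    have he : (⟨i.val + 1 + (j.val - (i.val + 1)), by omega⟩ : Fin n) = j := by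
      apply Fin.ext; simp; omega
    rw [he] at this
    exact this
  have h1 := h w w.2
  rw [form_expand hn hT] at h1
  have h2 : hT.eigenvalues hn i * ‖(w : E)‖ ^ 2 ≤
      ∑ j, hT.eigenvalues hn j * ‖⟪hT.eigenvectorBasis hn j, (w : E)⟫_ℂ‖ ^ 2 := by
    rw [norm_expand hn hT (w : E), Finset.mul_sum]
    refine Finset.sum_le_sum fun j _ => ?_
    rcases lt_or_ge i j with hji | hji
    · rw [← hb, hz j hji]; simp
    · exact mul_le_mul_of_nonneg_right (hT.eigenvalues_antitone hn hji) (by positivity)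
  have h3 : 0 < ‖(w : E)‖ ^ 2 := by positivity
  exact le_of_mul_le_mul_right (h2.trans h1) h3

theorem ev_mono {n : ℕ} (hn : finrank ℂ E = n) {A B : E →ₗ[ℂ] E} (hA : A.IsSymmetric)
    (hB : B.IsSymmetric) (c : ℝ)
    (h : ∀ v, (⟪v, A v⟫_ℂ).re ≤ (⟪v, B v⟫_ℂ).re + c * ‖v‖ ^ 2) (i : Fin n) :
    hA.eigenvalues hn i ≤ hB.eigenvalues hn i + c := by
  set b := hB.eigenvectorBasis hn with hb
  let φ : E →ₗ[ℂ] (Fin i.val → ℂ) := co fun l : Fin i.val => b ⟨l.val, l.isLt.trans i.isLt⟩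
  apply ev_le hn hA (LinearMap.ker φ) i
  · have := finrank_ker_ge φ
    simp only [finrank_fintype_fun_eq_card, Fintype.card_fin] at this
    omega
  · intro v hv
    have hz : ∀ j : Fin n, j < i → ⟪b j, v⟫_ℂ = 0 := by
      intro j hj
      have := congrFun (LinearMap.mem_ker.mp hv) ⟨j.val, hj⟩
      simpa [φ, co_apply] using this
    refine (h v).trans ?_
    have h2 : (⟪v, B v⟫_ℂ).re ≤ hB.eigenvalues hn i * ‖v‖ ^ 2 := by
      rw [form_expand hn hB, norm_expand hn hB v, Finset.mul_sum]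
      refine Finset.sum_le_sum fun j _ => ?_
      rcases lt_or_ge j i with hji | hji
      · rw [← hb, hz j hji]; simp
      · exact mul_le_mul_of_nonneg_right (hB.eigenvalues_antitone hn hji) (by positivity)
    linarith

theorem adj_form (X : E →ₗ[ℂ] F) (v : E) :
    (⟪v, (LinearMap.adjoint X ∘ₗ X) v⟫_ℂ).re = ‖X v‖ ^ 2 := by
  rw [LinearMap.comp_apply, LinearMap.adjoint_inner_right]
  have := inner_self_eq_norm_sq (𝕜 := ℂ) (X v)
  simpa using this

theorem sv_le_gen {G : Type*} [AddCommGroup G] [Module ℂ G] [FiniteDimensional ℂ G]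
    (X : E →ₗ[ℂ] F) (i : ℕ) (φ : E →ₗ[ℂ] G) (hG : finrank ℂ G ≤ i) (c : ℝ) (hc : 0 ≤ c)
    (h : ∀ v, φ v = 0 → ‖X v‖ ≤ c * ‖v‖) : X.singularValues i ≤ c := by
  by_cases hi : finrank ℂ E ≤ i
  · rw [X.singularValues_of_finrank_le hi]; exact hc
  · push Not at hi
    have h1 : X.singularValues i ^ 2 ≤ c ^ 2 := by
      rw [X.sq_singularValues_of_lt rfl hi]
      apply ev_le rfl _ (LinearMap.ker φ)
      · have := finrank_ker_ge φ
        show finrank ℂ E ≤ finrank ℂ (LinearMap.ker φ) + i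
        omega
      · intro v hv
        rw [adj_form, ← mul_pow]
        exact pow_le_pow_left₀ (norm_nonneg _) (h v (LinearMap.mem_ker.mp hv)) 2
    exact le_of_sq_le_sq h1 hc

theorem sv_le (X : E →ₗ[ℂ] F) (i : ℕ) (φ : E →ₗ[ℂ] (Fin i → ℂ)) (c : ℝ) (hc : 0 ≤ c)
    (h : ∀ v, φ v = 0 → ‖X v‖ ≤ c * ‖v‖) : X.singularValues i ≤ c :=
  sv_le_gen X i φ (by simp) c hc h

theorem sv_norm_expand (X : E →ₗ[ℂ] F) (v : E) :
    ‖X v‖ ^ 2 = ∑ j : Fin (finrank ℂ E), X.singularValues j ^ 2 *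
      ‖⟪X.isSymmetric_adjoint_comp_self.eigenvectorBasis rfl j, v⟫_ℂ‖ ^ 2 := by
  rw [← adj_form, form_expand rfl X.isSymmetric_adjoint_comp_self]
  refine Finset.sum_congr rfl fun j _ => ?_
  rw [X.sq_singularValues_fin rfl j]

theorem sv_exists (X : E →ₗ[ℂ] F) (i : ℕ) : ∃ φ : E →ₗ[ℂ] (Fin i → ℂ),
    ∀ v, φ v = 0 → ‖X v‖ ≤ X.singularValues i * ‖v‖ := by
  set b := X.isSymmetric_adjoint_comp_self.eigenvectorBasis (rfl : finrank ℂ E = finrank ℂ E) with hb
  refine ⟨co fun l : Fin i => if h : l.val < finrank ℂ E then b ⟨l.val, h⟩ else 0, fun v hv => ?_⟩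
  have hz : ∀ j : Fin (finrank ℂ E), j.val < i → ⟪b j, v⟫_ℂ = 0 := by
    intro j hj
    have := congrFun hv ⟨j.val, hj⟩
    rw [co_apply] at this
    simpa [j.isLt] using this
  have h1 : ‖X v‖ ^ 2 ≤ (X.singularValues i * ‖v‖) ^ 2 := by
    rw [mul_pow, norm_expand rfl X.isSymmetric_adjoint_comp_self v, Finset.mul_sum,
      sv_norm_expand]
    refine Finset.sum_le_sum fun j _ => ?_
    rcases lt_or_ge j.val i with hji | hji
    · rw [← hb, hz j hji]; simp
    · apply mul_le_mul_of_nonneg_right _ (by positivity)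
      exact pow_le_pow_left₀ (X.singularValues_nonneg _) (X.singularValues_antitone hji) 2
  exact le_of_sq_le_sq h1 (mul_nonneg (X.singularValues_nonneg _) (norm_nonneg _))

theorem sv_interlace (X Y : E →ₗ[ℂ] F) (r : ℕ) (φ : E →ₗ[ℂ] (Fin r → ℂ))
    (h : ∀ v, φ v = 0 → X v = Y v) (i : ℕ) :
    X.singularValues (i + r) ≤ Y.singularValues i := by
  obtain ⟨ψ, hψ⟩ := sv_exists Y i
  apply sv_le_gen X (i + r) (ψ.prod φ) _ _ (Y.singularValues_nonneg i)
  · intro v hv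
    have h1 : ψ v = 0 := congrArg Prod.fst hv
    have h2 : φ v = 0 := congrArg Prod.snd hv
    rw [h v h2]
    exact hψ v h1
  · simp

theorem sv_large (X : E →ₗ[ℂ] F) (i : ℕ) (hi : i < finrank ℂ E) : ∃ V : Submodule ℂ E,
    finrank ℂ V = i + 1 ∧ ∀ v ∈ V, X.singularValues i * ‖v‖ ≤ ‖X v‖ := by
  set b := X.isSymmetric_adjoint_comp_self.eigenvectorBasis (rfl : finrank ℂ E = finrank ℂ E) with hb
  let g : Fin (i + 1) → E := fun l => b (Fin.castLE hi l)
  have hli : LinearIndependent ℂ g := by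
    have h1 := b.orthonormal.linearIndependent
    exact h1.comp (Fin.castLE hi) (Fin.castLE_injective hi)
  refine ⟨Submodule.span ℂ (Set.range g), ?_, ?_⟩
  · rw [finrank_span_eq_card hli]; simp
  · intro v hv
    have hz : ∀ j : Fin (finrank ℂ E), i < j.val → ⟪b j, v⟫_ℂ = 0 := by
      intro j hj
      induction hv using Submodule.span_induction with
      | mem x hx =>
        obtain ⟨l, rfl⟩ := hx
        have hne : j ≠ Fin.castLE hi l := by
          intro he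
          have := congrArg Fin.val he
          simp at this
          have := l.isLt
          omega
        exact b.orthonormal.2 hne
      | zero => simp
      | add x y _ _ hx hy => rw [inner_add_right, hx, hy, add_zero]
      | smul a x _ hx => rw [inner_smul_right, hx, mul_zero]
    have h1 : (X.singularValues i * ‖v‖) ^ 2 ≤ ‖X v‖ ^ 2 := by
      rw [mul_pow, norm_expand rfl X.isSymmetric_adjoint_comp_self v, Finset.mul_sum,
        sv_norm_expand]
      refine Finset.sum_le_sum fun j _ => ?_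
      rcases lt_or_ge i j.val with hji | hji
      · rw [← hb, hz j hji]; simp
      · apply mul_le_mul_of_nonneg_right _ (by positivity)
        exact pow_le_pow_left₀ (X.singularValues_nonneg _) (X.singularValues_antitone hji) 2
    exact le_of_sq_le_sq h1 (norm_nonneg _)

end Pool.Agent.H632.MC
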