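import Mathlib
set_option autoImplicit false

namespace Pool.Agent.H632.MC

theorem count_pointwise (a b c : ℕ → ℝ) (r k : ℕ)
    (ha : Antitone a) (hb : Antitone b) (hc : Antitone c)
    (h1 : ∀ i, a (i + r) ≤ c i) (h2 : ∀ i, c (i + r) ≤ a i) (hrk : r ≤ k) :
    ∃ S : Finset ℕ, S ⊆ Finset.range k ∧ S.card ≤ k - r ∧ ∀ τ : ℝ,
      ((Finset.range k).filter (fun i => (b i ≤ τ ∧ τ < a i) ∨ (a i ≤ τ ∧ τ < b i))).card ≤
        r + (S.filter (fun i => (b i ≤ τ ∧ τ < c i) ∨ (c i ≤ τ ∧ τ < b i))).card := by
  classical
  let A : ℕ → Prop := fun i => ∀ j, i ≤ j → j ≤ i + r → j < k ∧ b j ≤ a j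
  let B : ℕ → Prop := fun i => r ≤ i ∧ ∀ j, i - r ≤ j → j ≤ i → a j < b j
  let S : Finset ℕ := (Finset.range k).filter (fun i => A i ∨ B i)
  have hS : ∀ i, i ∈ S ↔ i < k ∧ (A i ∨ B i) := by
    intro i
    simp only [S, Finset.mem_filter, Finset.mem_range]
  refine ⟨S, Finset.filter_subset _ _, ?_, ?_⟩
  · have hcard : S.card ≤ (Finset.range (k - r)).card := by
      refine Finset.card_le_card_of_injOn (fun i => if A i then i else i - r) ?_ ?_
      · intro i hi
        have hi' := (hS i).1 (by exact_mod_cast hi)
        simp only [Finset.coe_range, Set.mem_Iio]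
        by_cases hA : A i
        · rw [if_pos hA]
          have := (hA (i + r) (by omega) le_rfl).1
          omega
        · rw [if_neg hA]
          have hB : B i := hi'.2.resolve_left hA
          have := hB.1
          have := hi'.1
          omega
      · intro i hi i2 hi2 heq
        have hi' := (hS i).1 (by exact_mod_cast hi)
        have hi2' := (hS i2).1 (by exact_mod_cast hi2)
        simp only at heq
        by_cases hA : A i
        · by_cases hA2 : A i2
          · rw [if_pos hA, if_pos hA2] at heq
            exact heq
          · rw [if_pos hA, if_neg hA2] at heq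
            have hB2 : B i2 := hi2'.2.resolve_left hA2
            exfalso
            have e1 := (hA i2 (by omega) (by have := hB2.1; omega)).2
            have e2 := hB2.2 i2 (by omega) le_rfl
            linarith
        · have hB : B i := hi'.2.resolve_left hA
          by_cases hA2 : A i2
          · rw [if_neg hA, if_pos hA2] at heq
            exfalso
            have e1 := (hA2 i (by omega) (by have := hB.1; omega)).2
            have e2 := hB.2 i (by omega) le_rfl
            linarith
          · rw [if_neg hA, if_neg hA2] at heq
            have hB2 : B i2 := hi2'.2.resolve_left hA2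
            have := hB.1
            have := hB2.1
            omega
    simpa using hcard
  · intro τ
    set P := (Finset.range k).filter
      (fun i => (b i ≤ τ ∧ τ < a i) ∨ (a i ≤ τ ∧ τ < b i)) with hP
    set R := S.filter (fun i => (b i ≤ τ ∧ τ < c i) ∨ (c i ≤ τ ∧ τ < b i)) with hR
    have hPm : ∀ i, i ∈ P ↔ i < k ∧ ((b i ≤ τ ∧ τ < a i) ∨ (a i ≤ τ ∧ τ < b i)) := by
      intro i
      simp only [hP, Finset.mem_filter, Finset.mem_range]
    have hRm : ∀ i, i ∈ R ↔ i ∈ S ∧ ((b i ≤ τ ∧ τ < c i) ∨ (c i ≤ τ ∧ τ < b i)) := by
      intro i
      simp only [hR, Finset.mem_filter]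
    -- main reduction
    suffices hQ : ∃ Q : Finset ℕ, Q.card ≤ r ∧ P ⊆ Q ∪ R by
      obtain ⟨Q, hQ1, hQ2⟩ := hQ
      calc P.card ≤ (Q ∪ R).card := Finset.card_le_card hQ2
        _ ≤ Q.card + R.card := Finset.card_union_le _ _
        _ ≤ r + R.card := by omega
    by_cases hne : P.Nonempty
    swap
    · rw [Finset.not_nonempty_iff_eq_empty] at hne
      exact ⟨∅, by simp, by rw [hne]; exact Finset.empty_subset _⟩
    by_cases hT : ∃ i, b i ≤ τ ∧ τ < a i
    · -- all of type A
      obtain ⟨i0, hi0⟩ := hT
      have hall : ∀ i, i ∈ P → (b i ≤ τ ∧ τ < a i) := by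
        intro i hi
        rcases ((hPm i).1 hi).2 with h | h
        · exact h
        · exfalso
          rcases le_total i0 i with hle | hle
          · have := hb hle
            linarith [hi0.1, h.2]
          · have := ha hle
            linarith [hi0.2, h.1]
      have hmax := P.max'_mem hne
      set m := P.max' hne with hm
      refine ⟨Finset.Icc (m + 1 - r) m, by rw [Nat.card_Icc]; omega, ?_⟩
      intro i hi
      rw [Finset.mem_union]
      have him : i ≤ m := P.le_max' i hi
      by_cases hir : m < i + r
      · left
        rw [Finset.mem_Icc]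
        omega
      · right
        push Not at hir
        have hi' := hall i hi
        have hm' := hall m hmax
        have hmk := ((hPm m).1 hmax).1
        have hAi : A i := by
          intro j hij hjr
          refine ⟨by omega, ?_⟩
          have e1 := hb hij
          have e2 := ha (show j ≤ m by omega)
          linarith [hi'.1, hm'.2]
        rw [hRm, hS]
        refine ⟨⟨by omega, Or.inl hAi⟩, Or.inl ⟨hi'.1, ?_⟩⟩
        have e2 := ha hir
        have e3 := h1 i
        linarith [hm'.2]
    · have hall : ∀ i, i ∈ P → (a i ≤ τ ∧ τ < b i) := by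
        intro i hi
        rcases ((hPm i).1 hi).2 with h | h
        · exact absurd ⟨i, h⟩ hT
        · exact h
      have hmin := P.min'_mem hne
      set m := P.min' hne with hm
      refine ⟨Finset.Ico m (m + r), by rw [Nat.card_Ico]; omega, ?_⟩
      intro i hi
      rw [Finset.mem_union]
      have him : m ≤ i := P.min'_le i hi
      by_cases hir : i < m + r
      · left
        rw [Finset.mem_Ico]
        omega
      · right
        push Not at hir
        have hi' := hall i hi
        have hm' := hall m hmin
        have hik := ((hPm i).1 hi).1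
        have hBi : B i := by
          refine ⟨by omega, ?_⟩
          intro j hij hjr
          have e1 := hb hjr
          have e2 := ha (show m ≤ j by omega)
          linarith [hi'.2, hm'.1]
        rw [hRm, hS]
        refine ⟨⟨hik, Or.inr hBi⟩, Or.inr ⟨?_, hi'.2⟩⟩
        have e2 := ha (show m ≤ i - r by omega)
        have e3 := h2 (i - r)
        rw [show i - r + r = i by omega] at e3
        linarith [hm'.1]

end Pool.Agent.H632.MC
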