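import Pool.Agent.H632.MC.Base
set_option autoImplicit false
open scoped InnerProductSpace
open Module

namespace Pool.Agent.H632.MC

variable {E : Type*} [NormedAddCommGroup E] [InnerProductSpace ℂ E] [FiniteDimensional ℂ E]
variable {F : Type*} [NormedAddCommGroup F] [InnerProductSpace ℂ F] [FiniteDimensional ℂ F]





/-- Hermitian dilation -/
noncomputable def dil (X : E →ₗ[ℂ] F) : WithLp 2 (E × F) →ₗ[ℂ] WithLp 2 (E × F) where
  toFun w := WithLp.toLp 2 (LinearMap.adjoint X w.snd, X w.fst)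
  map_add' w z := by
    simp [map_add, ← WithLp.toLp_add]
  map_smul' c w := by
    simp [map_smul, ← WithLp.toLp_smul]

theorem dil_fst (X : E →ₗ[ℂ] F) (w : WithLp 2 (E × F)) :
    (dil X w).fst = LinearMap.adjoint X w.snd := rfl

theorem dil_snd (X : E →ₗ[ℂ] F) (w : WithLp 2 (E × F)) :
    (dil X w).snd = X w.fst := rfl

theorem dil_inner (w z : WithLp 2 (E × F)) :
    ⟪w, z⟫_ℂ = ⟪w.fst, z.fst⟫_ℂ + ⟪w.snd, z.snd⟫_ℂ := WithLp.prod_inner_apply w z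

/-- TARGET 1 -/
theorem dil_symm (X : E →ₗ[ℂ] F) : (dil X).IsSymmetric := by
  intro w z
  rw [dil_inner, dil_inner, dil_fst, dil_snd, dil_fst, dil_snd,
    LinearMap.adjoint_inner_left, LinearMap.adjoint_inner_right]
  ring

/-- TARGET 2 -/
theorem dil_form (X : E →ₗ[ℂ] F) (w : WithLp 2 (E × F)) :
    (⟪w, dil X w⟫_ℂ).re = 2 * (⟪w.snd, X w.fst⟫_ℂ).re := by
  rw [dil_inner, dil_fst, dil_snd, LinearMap.adjoint_inner_right, Complex.add_re]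
  have h : (⟪X w.fst, w.snd⟫_ℂ).re = (⟪w.snd, X w.fst⟫_ℂ).re := by
    rw [← inner_conj_symm, Complex.conj_re]
  rw [h]
  ring

/-- the graph of `c X` -/
noncomputable def dilEmb (X : E →ₗ[ℂ] F) (c : ℝ) : E →ₗ[ℂ] WithLp 2 (E × F) where
  toFun v := WithLp.toLp 2 (v, (c : ℂ) • X v)
  map_add' v z := by
    rw [map_add, smul_add, ← WithLp.toLp_add, Prod.mk_add_mk]
  map_smul' a v := by
    rw [map_smul, smul_comm, RingHom.id_apply, ← WithLp.toLp_smul, Prod.smul_mk]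

theorem dilEmb_fst (X : E →ₗ[ℂ] F) (c : ℝ) (v : E) : (dilEmb X c v).fst = v := rfl

theorem dilEmb_snd (X : E →ₗ[ℂ] F) (c : ℝ) (v : E) : (dilEmb X c v).snd = (c : ℂ) • X v := rfl

theorem dilEmb_inj (X : E →ₗ[ℂ] F) (c : ℝ) : Function.Injective (dilEmb X c) := by
  intro v z h
  have := congrArg WithLp.fst h
  rwa [dilEmb_fst, dilEmb_fst] at this

theorem dilEmb_finrank (X : E →ₗ[ℂ] F) (c : ℝ) (V : Submodule ℂ E) :
    finrank ℂ (V.map (dilEmb X c)) = finrank ℂ V :=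
  (Submodule.equivMapOfInjective (dilEmb X c) (dilEmb_inj X c) V).finrank_eq.symm

theorem dilEmb_form (X : E →ₗ[ℂ] F) (c : ℝ) (v : E) :
    (⟪dilEmb X c v, dil X (dilEmb X c v)⟫_ℂ).re = 2 * (c * ‖X v‖ ^ 2) := by
  rw [dil_form, dilEmb_fst, dilEmb_snd, inner_smul_left, Complex.conj_ofReal,
    inner_self_eq_norm_sq_to_K]
  congr 1
  rw [Complex.re_ofReal_mul]
  congr 1
  norm_cast

theorem dilEmb_norm (X : E →ₗ[ℂ] F) (c : ℝ) (v : E) :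
    ‖dilEmb X c v‖ ^ 2 = ‖v‖ ^ 2 + c ^ 2 * ‖X v‖ ^ 2 := by
  rw [WithLp.prod_norm_sq_eq_of_L2, dilEmb_fst, dilEmb_snd, norm_smul, mul_pow]
  congr 2
  rw [Complex.norm_real, Real.norm_eq_abs, sq_abs]

theorem dil_aux (s a b : ℝ) (hs : 0 ≤ s) (ha : 0 ≤ a) (h : s * a ≤ b) :
    s * (a ^ 2 + s⁻¹ ^ 2 * b ^ 2) ≤ 2 * (s⁻¹ * b ^ 2) := by
  rcases hs.eq_or_lt with h0 | h0
  · rw [← h0]; simp
  · have h1 : (s * a) ^ 2 ≤ b ^ 2 := pow_le_pow_left₀ (mul_nonneg hs ha) h 2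
    have h2 : s * a ^ 2 ≤ s⁻¹ * b ^ 2 := by
      calc s * a ^ 2 = s⁻¹ * (s * a) ^ 2 := by field_simp
        _ ≤ s⁻¹ * b ^ 2 := mul_le_mul_of_nonneg_left h1 (inv_nonneg.2 hs)
    have h3 : s * (s⁻¹ ^ 2 * b ^ 2) = s⁻¹ * b ^ 2 := by field_simp
    rw [mul_add, h3]
    linarith

/-- the kernel of `φ ∘ fst` is large -/
theorem dil_ker {i : ℕ} (φ : E →ₗ[ℂ] (Fin i → ℂ)) {D : ℕ}
    (hD : finrank ℂ (WithLp 2 (E × F)) = D) :
    D ≤ finrank ℂ (LinearMap.ker (φ ∘ₗ (WithLp.fstₗ 2 ℂ E F))) + i := by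
  have h1 := LinearMap.finrank_range_add_finrank_ker (φ ∘ₗ (WithLp.fstₗ 2 ℂ E F))
  have h2 : finrank ℂ (LinearMap.range (φ ∘ₗ (WithLp.fstₗ 2 ℂ E F))) ≤ i := by
    calc finrank ℂ (LinearMap.range (φ ∘ₗ (WithLp.fstₗ 2 ℂ E F)))
        ≤ finrank ℂ (Fin i → ℂ) := Submodule.finrank_le _
      _ = i := by simp
  omega

theorem dil_abs (X : E →ₗ[ℂ] F) (s : ℝ) (hs : 0 ≤ s) (w : WithLp 2 (E × F))
    (h : ‖X w.fst‖ ≤ s * ‖w.fst‖) :
    |(⟪w, dil X w⟫_ℂ).re| ≤ s * ‖w‖ ^ 2 := by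
  rw [dil_form, WithLp.prod_norm_sq_eq_of_L2, abs_mul, abs_of_pos (by norm_num : (0:ℝ) < 2)]
  have h1 : |(⟪w.snd, X w.fst⟫_ℂ).re| ≤ ‖w.snd‖ * ‖X w.fst‖ :=
    (Complex.abs_re_le_norm _).trans (norm_inner_le_norm _ _)
  have h2 : ‖w.snd‖ * ‖X w.fst‖ ≤ ‖w.snd‖ * (s * ‖w.fst‖) :=
    mul_le_mul_of_nonneg_left h (norm_nonneg _)
  nlinarith [sq_nonneg (‖w.fst‖ - ‖w.snd‖), norm_nonneg w.fst, norm_nonneg w.snd,
    mul_nonneg hs (sq_nonneg (‖w.fst‖ - ‖w.snd‖))]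

/-- TARGET 3 -/
theorem dil_eig (X : E →ₗ[ℂ] F) {D : ℕ} (hD : finrank ℂ (WithLp 2 (E × F)) = D) (i : ℕ)
    (hi : i < finrank ℂ E) (hiD : i < D) :
    (dil_symm X).eigenvalues hD ⟨i, hiD⟩ = X.singularValues i := by
  have hs := X.singularValues_nonneg i
  apply le_antisymm
  · obtain ⟨φ, hφ⟩ := sv_exists X i
    refine ev_le hD (dil_symm X) (LinearMap.ker (φ ∘ₗ (WithLp.fstₗ 2 ℂ E F))) ⟨i, hiD⟩
      (dil_ker φ hD) _ ?_
    intro w hw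
    have hw' : φ w.fst = 0 := hw
    exact (le_abs_self _).trans (dil_abs X _ hs w (hφ _ hw'))
  · obtain ⟨V, hV, hV'⟩ := sv_large X i hi
    refine ev_ge hD (dil_symm X) (V.map (dilEmb X (X.singularValues i)⁻¹)) ⟨i, hiD⟩ ?_ _ ?_
    · rw [dilEmb_finrank, hV]
      exact Nat.lt_succ_self i
    · rintro w ⟨v, hv, rfl⟩
      rw [dilEmb_form, dilEmb_norm]
      exact dil_aux _ _ _ hs (norm_nonneg v) (hV' v hv)

/-- TARGET 4 -/
theorem dil_eig_neg (X : E →ₗ[ℂ] F) {D : ℕ} (hD : finrank ℂ (WithLp 2 (E × F)) = D) (i : ℕ)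
    (hi : i < finrank ℂ E) (hiD : D - 1 - i < D) :
    (dil_symm X).eigenvalues hD ⟨D - 1 - i, hiD⟩ = - X.singularValues i := by
  have hs := X.singularValues_nonneg i
  apply le_antisymm
  · obtain ⟨V, hV, hV'⟩ := sv_large X i hi
    refine ev_le hD (dil_symm X) (V.map (dilEmb X (-(X.singularValues i)⁻¹))) ⟨D - 1 - i, hiD⟩ ?_ _ ?_
    · rw [dilEmb_finrank, hV]
      show D ≤ i + 1 + (D - 1 - i)
      omega
    · rintro w ⟨v, hv, rfl⟩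
      rw [dilEmb_form, dilEmb_norm]
      have := dil_aux _ _ _ hs (norm_nonneg v) (hV' v hv)
      rw [neg_sq]
      linarith
  · obtain ⟨φ, hφ⟩ := sv_exists X i
    have hk := dil_ker (F := F) φ hD
    have hED : finrank ℂ E ≤ D := by
      rw [← hD]
      exact LinearMap.finrank_le_finrank_of_injective (dilEmb_inj X 0)
    refine ev_ge hD (dil_symm X) (LinearMap.ker (φ ∘ₗ (WithLp.fstₗ 2 ℂ E F))) ⟨D - 1 - i, hiD⟩
      ?_ _ ?_
    · show D - 1 - i < _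
      omega
    intro w hw
    have hw' : φ w.fst = 0 := hw
    have h1 := dil_abs X _ hs w (hφ _ hw')
    have h2 := neg_abs_le (⟪w, dil X w⟫_ℂ).re
    linarith

end Pool.Agent.H632.MC
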