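import Mathlib
set_option autoImplicit false

namespace Pool.Agent.H632.MC

theorem concave_rep_mono (f : ℝ → ℝ) (hf : ConcaveOn ℝ (Set.Ici 0) f)
    (hn : ∀ x : ℝ, 0 ≤ x → 0 ≤ f x) (x M : ℝ) (hx : 0 ≤ x) (hxM : x < M) : f x ≤ f M := by
  by_contra hcon
  push Not at hcon
  have hM : 0 ≤ M := hx.trans hxM.le
  have hfM := hn M hM
  have hδ : 0 < (f x - f M) / (M - x) := div_pos (by linarith) (by linarith)
  obtain ⟨δ, hδe⟩ : ∃ δ, δ = (f x - f M) / (M - x) := ⟨_, rfl⟩
  rw [← hδe] at hδ
  have hz : M < M + (f M + 1) / δ := by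
    have : 0 < (f M + 1) / δ := div_pos (by linarith) hδ
    linarith
  have h1 := hf.slope_anti_adjacent (x := x) (y := M) (z := M + (f M + 1) / δ) hx
    (by show (0 : ℝ) ≤ _; linarith) hxM hz
  have h2 : (f M - f x) / (M - x) = -δ := by
    rw [hδe]; ring
  rw [h2, div_le_iff₀ (by linarith)] at h1
  have h3 := hn (M + (f M + 1) / δ) (by linarith)
  have h4 : -δ * (M + (f M + 1) / δ - M) = -(f M + 1) := by
    field_simp
    ring
  rw [h4] at h1
  linarith

theorem concave_rep_aux (f : ℝ → ℝ) (hf : ConcaveOn ℝ (Set.Ici 0) f) (h0 : f 0 = 0)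
    (s : Finset ℝ) : (∀ x ∈ s, 0 ≤ x) → ∀ M, M ∈ insert 0 s → (∀ x ∈ s, x ≤ M) →
      ∀ κ : ℝ, 0 ≤ κ → (∀ x ∈ insert 0 s, x < M → κ * (M - x) ≤ f M - f x) →
      ∃ (N : ℕ) (c t : Fin N → ℝ), (∀ j, 0 ≤ c j) ∧ (∀ j, 0 ≤ t j ∧ t j ≤ M) ∧
      ∀ x ∈ insert 0 s, f x = κ * x + ∑ j, c j * min x (t j) := by
  induction s using Finset.induction_on_max with
  | empty =>
    intro _ M hM _ κ _ _
    refine ⟨0, fun _ => 0, fun _ => 0, fun j => j.elim0, fun j => j.elim0, ?_⟩
    intro x hx
    rw [Finset.mem_insert] at hx
    rcases hx with rfl | hx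
    · rw [h0]; simp
    · exact absurd hx (Finset.notMem_empty _)
  | insert y s hys ih =>
    intro hs M hM hMx κ hκ hκM
    have hy0 : 0 ≤ y := hs y (Finset.mem_insert_self _ _)
    have hyM : y ≤ M := hMx y (Finset.mem_insert_self _ _)
    have hMy : M = y := by
      rw [Finset.mem_insert, Finset.mem_insert] at hM
      rcases hM with h | h | h
      · linarith
      · exact h
      · have := hys M h
        linarith
    subst hMy
    rcases hy0.eq_or_lt with hy | hy
    · refine ⟨0, fun _ => 0, fun _ => 0, fun j => j.elim0, fun j => j.elim0, ?_⟩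
      intro x hx
      have hx0 : x = 0 := by
        rw [Finset.mem_insert] at hx
        rcases hx with h | h
        · exact h
        · have h1 := hs x h
          have h2 := hMx x h
          linarith
      rw [hx0, h0]; simp
    · obtain ⟨m, hm, hmmax⟩ := Finset.exists_max_image (insert 0 s) id ⟨0, Finset.mem_insert_self _ _⟩
      simp only [id] at hmmax
      have hm0 : 0 ≤ m := hmmax 0 (Finset.mem_insert_self _ _)
      have hmM : m < M := by
        rw [Finset.mem_insert] at hm
        rcases hm with h | h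
        · rw [h]; exact hy
        · exact hys m h
      have hmem : m ∈ insert 0 (insert M s) := by
        rw [Finset.mem_insert] at hm
        rcases hm with h | h
        · rw [h]; exact Finset.mem_insert_self _ _
        · exact Finset.mem_insert_of_mem (Finset.mem_insert_of_mem h)
      obtain ⟨S, hS⟩ : ∃ S, S = (f M - f m) / (M - m) := ⟨_, rfl⟩
      have hMm : 0 < M - m := by linarith
      have hκS : κ ≤ S := by
        rw [hS, le_div_iff₀ hMm]
        exact hκM m hmem hmM
      obtain ⟨N, c, t, hc, ht, hrep⟩ := ih (fun x hx => hs x (Finset.mem_insert_of_mem hx)) m hm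
        (fun x hx => hmmax x (Finset.mem_insert_of_mem hx)) S (hκ.trans hκS) (by
          intro x hx hxm
          have hx0 : 0 ≤ x := by
            rw [Finset.mem_insert] at hx
            rcases hx with h | h
            · exact h.ge
            · exact hs x (Finset.mem_insert_of_mem h)
          have h1 := hf.slope_anti_adjacent (x := x) (y := m) (z := M) hx0
            (by show (0 : ℝ) ≤ _; linarith) hxm hmM
          rw [← hS, le_div_iff₀ (by linarith)] at h1
          exact h1)
      have hrep' : ∀ x ∈ insert 0 (insert M s), f x = S * x + ∑ j, c j * min x (t j) := by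
        intro x hx
        rw [Finset.mem_insert, Finset.mem_insert] at hx
        rcases hx with h | h | h
        · exact hrep x (by rw [h]; exact Finset.mem_insert_self _ _)
        · subst h
          have h1 := hrep m hm
          have h2 : ∑ j, c j * min x (t j) = ∑ j, c j * min m (t j) := by
            apply Finset.sum_congr rfl
            intro j _
            rw [min_eq_right (ht j).2, min_eq_right ((ht j).2.trans hmM.le)]
          have h3 : S * (x - m) = f x - f m := by
            rw [hS]; field_simp
          rw [h2]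
          linarith
        · exact hrep x (Finset.mem_insert_of_mem h)
      refine ⟨N + 1, Fin.cons (S - κ) c, Fin.cons M t, ?_, ?_, ?_⟩
      · intro j
        refine Fin.cases ?_ (fun j => ?_) j
        · rw [Fin.cons_zero]; linarith
        · rw [Fin.cons_succ]; exact hc j
      · intro j
        refine Fin.cases ?_ (fun j => ?_) j
        · rw [Fin.cons_zero]; exact ⟨hy0, le_rfl⟩
        · rw [Fin.cons_succ]; exact ⟨(ht j).1, (ht j).2.trans hmM.le⟩
      · intro x hx
        have hxM : x ≤ M := by
          rw [Finset.mem_insert] at hx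
          rcases hx with h | h
          · rw [h]; exact hy0
          · exact hMx x h
        rw [Fin.sum_univ_succ]
        simp only [Fin.cons_zero, Fin.cons_succ]
        rw [min_eq_left hxM, hrep' x hx]
        ring

theorem concave_rep (f : ℝ → ℝ) (hf : ConcaveOn ℝ (Set.Ici 0) f) (h0 : f 0 = 0)
    (hn : ∀ x : ℝ, 0 ≤ x → 0 ≤ f x) (s : Finset ℝ) (hs : ∀ x ∈ s, 0 ≤ x) :
    ∃ (N : ℕ) (c t : Fin N → ℝ), (∀ j, 0 ≤ c j) ∧ (∀ j, 0 ≤ t j) ∧
      ∀ x ∈ s, f x = ∑ j, c j * min x (t j) := by
  obtain ⟨m, hm, hmmax⟩ := Finset.exists_max_image (insert 0 s) id ⟨0, Finset.mem_insert_self _ _⟩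
  simp only [id] at hmmax
  obtain ⟨N, c, t, hc, ht, hrep⟩ := concave_rep_aux f hf h0 s hs m hm
    (fun x hx => hmmax x (Finset.mem_insert_of_mem hx)) 0 le_rfl (by
      intro x hx hxm
      have hx0 : 0 ≤ x := by
        rw [Finset.mem_insert] at hx
        rcases hx with h | h
        · exact h.ge
        · exact hs x h
      have := concave_rep_mono f hf hn x m hx0 hxm
      linarith)
  refine ⟨N, c, t, hc, fun j => (ht j).1, fun x hx => ?_⟩
  have := hrep x (Finset.mem_insert_of_mem hx)
  linarith

end Pool.Agent.H632.MC
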