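import Pool.Agent.H632.MC.Trunc
import Pool.Agent.H632.MC.Rep
set_option autoImplicit false
open scoped InnerProductSpace
open Module

namespace Pool.Agent.H632.MC

section general

variable {E : Type*} [NormedAddCommGroup E] [InnerProductSpace ℂ E] [FiniteDimensional ℂ E]
variable {F : Type*} [NormedAddCommGroup F] [InnerProductSpace ℂ F] [FiniteDimensional ℂ F]

/-- Miao's inequality for linear maps between finite dimensional inner product spaces. -/
theorem miao (X Y : E →ₗ[ℂ] F) (f : ℝ → ℝ) (hf : ConcaveOn ℝ (Set.Ici 0) f) (h0 : f 0 = 0)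
    (hn : ∀ x : ℝ, 0 ≤ x → 0 ≤ f x) (k : ℕ) (hkE : k ≤ finrank ℂ E) (hkF : k ≤ finrank ℂ F) :
    ∑ i ∈ Finset.range k, |f (X.singularValues i) - f (Y.singularValues i)| ≤
      ∑ i ∈ Finset.range k, f ((X - Y).singularValues i) := by
  classical
  let s : Finset ℝ := (Finset.range k).image (fun i => X.singularValues i) ∪
    ((Finset.range k).image (fun i => Y.singularValues i) ∪
      (Finset.range k).image (fun i => (X - Y).singularValues i))
  have hs : ∀ x ∈ s, 0 ≤ x := by
    intro x hx
    simp only [s, Finset.mem_union, Finset.mem_image] at hx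
    rcases hx with ⟨i, _, rfl⟩ | ⟨i, _, rfl⟩ | ⟨i, _, rfl⟩
    · exact X.singularValues_nonneg i
    · exact Y.singularValues_nonneg i
    · exact (X - Y).singularValues_nonneg i
  obtain ⟨N, c, t, hc, ht, hrep⟩ := concave_rep f hf h0 hn s hs
  have hX : ∀ i ∈ Finset.range k, f (X.singularValues i) =
      ∑ j, c j * min (X.singularValues i) (t j) := by
    intro i hi
    apply hrep
    simp only [s, Finset.mem_union, Finset.mem_image]
    exact Or.inl ⟨i, hi, rfl⟩
  have hY : ∀ i ∈ Finset.range k, f (Y.singularValues i) =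
      ∑ j, c j * min (Y.singularValues i) (t j) := by
    intro i hi
    apply hrep
    simp only [s, Finset.mem_union, Finset.mem_image]
    exact Or.inr (Or.inl ⟨i, hi, rfl⟩)
  have hZ : ∀ i ∈ Finset.range k, f ((X - Y).singularValues i) =
      ∑ j, c j * min ((X - Y).singularValues i) (t j) := by
    intro i hi
    apply hrep
    simp only [s, Finset.mem_union, Finset.mem_image]
    exact Or.inr (Or.inr ⟨i, hi, rfl⟩)
  calc ∑ i ∈ Finset.range k, |f (X.singularValues i) - f (Y.singularValues i)|
      ≤ ∑ i ∈ Finset.range k, ∑ j, c j *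
          |min (X.singularValues i) (t j) - min (Y.singularValues i) (t j)| := by
        refine Finset.sum_le_sum fun i hi => ?_
        rw [hX i hi, hY i hi, ← Finset.sum_sub_distrib]
        refine (Finset.abs_sum_le_sum_abs _ _).trans (Finset.sum_le_sum fun j _ => ?_)
        rw [← mul_sub, abs_mul, abs_of_nonneg (hc j)]
    _ = ∑ j, c j * ∑ i ∈ Finset.range k,
          |min (X.singularValues i) (t j) - min (Y.singularValues i) (t j)| := by
        rw [Finset.sum_comm]
        exact Finset.sum_congr rfl fun j _ => (Finset.mul_sum _ _ _).symm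
    _ ≤ ∑ j, c j * ∑ i ∈ Finset.range k, min ((X - Y).singularValues i) (t j) :=
        Finset.sum_le_sum fun j _ =>
          mul_le_mul_of_nonneg_left (trunc X Y k hkE hkF (t j) (ht j)) (hc j)
    _ = ∑ i ∈ Finset.range k, ∑ j, c j * min ((X - Y).singularValues i) (t j) := by
        rw [Finset.sum_comm]
        exact Finset.sum_congr rfl fun j _ => Finset.mul_sum _ _ _
    _ = ∑ i ∈ Finset.range k, f ((X - Y).singularValues i) :=
        Finset.sum_congr rfl fun i hi => (hZ i hi).symm

end general

theorem eig_congr {E : Type*} [NormedAddCommGroup E] [InnerProductSpace ℂ E]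
    [FiniteDimensional ℂ E] {n : ℕ} (hn : finrank ℂ E = n) {A B : E →ₗ[ℂ] E} (hA : A.IsSymmetric)
    (hB : B.IsSymmetric) (h : A = B) : hA.eigenvalues hn = hB.eigenvalues hn := by
  subst h; rfl

/-- the square roots of the ordered eigenvalues of `Xᴴ X` are the singular values -/
theorem sqrt_eigenvalues₀ {n m : ℕ} (X : Matrix (Fin n) (Fin m) ℂ)
    (i : Fin (Fintype.card (Fin m))) :
    Real.sqrt ((Matrix.isHermitian_conjTranspose_mul_self X).eigenvalues₀ i) =
      (Matrix.toEuclideanLin X).singularValues i.val := by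
  have hn : finrank ℂ (EuclideanSpace ℂ (Fin m)) = Fintype.card (Fin m) := finrank_euclideanSpace
  rw [(Matrix.toEuclideanLin X).singularValues_fin hn i]
  congr 1
  have hlin : Matrix.toEuclideanLin (X.conjTranspose * X) =
      LinearMap.adjoint (Matrix.toEuclideanLin X) ∘ₗ Matrix.toEuclideanLin X := by
    rw [← Matrix.toEuclideanLin_conjTranspose_eq_adjoint]
    apply LinearMap.ext
    intro v
    simp [Matrix.toEuclideanLin_apply, Matrix.mulVec_mulVec]
  exact congrFun (eig_congr hn _ _ hlin) i

theorem sum_filter_range {m k : ℕ} (hk : k ≤ m) (g : ℕ → ℝ) :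
    ∑ i ∈ Finset.univ.filter (fun i : Fin m => i.val < k), g i.val =
      ∑ i ∈ Finset.range k, g i := by
  rw [Finset.sum_filter, Fin.sum_univ_eq_sum_range (fun i => if i < k then g i else 0) m,
    ← Finset.sum_filter]
  congr 1
  ext i
  simp only [Finset.mem_filter, Finset.mem_range]
  omega

theorem miao_matrix (n m : ℕ) (X Y : Matrix (Fin n) (Fin m) ℂ) (f : ℝ → ℝ)
    (hf : ConcaveOn ℝ (Set.Ici 0) f) (h0 : f 0 = 0) (hn : ∀ x : ℝ, 0 ≤ x → 0 ≤ f x)
    (k : ℕ) (hkn : k ≤ n) (hkm : k ≤ m) :
    ∑ i ∈ Finset.univ.filter (fun i : Fin (Fintype.card (Fin m)) => i.val < k),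
        |f (Real.sqrt ((Matrix.isHermitian_conjTranspose_mul_self X).eigenvalues₀ i))
          - f (Real.sqrt ((Matrix.isHermitian_conjTranspose_mul_self Y).eigenvalues₀ i))|
      ≤ ∑ i ∈ Finset.univ.filter (fun i : Fin (Fintype.card (Fin m)) => i.val < k),
          f (Real.sqrt ((Matrix.isHermitian_conjTranspose_mul_self (X - Y)).eigenvalues₀ i)) := by
  have hk' : k ≤ Fintype.card (Fin m) := by rw [Fintype.card_fin]; exact hkm
  simp only [sqrt_eigenvalues₀]
  rw [sum_filter_range hk' (fun i => |f ((Matrix.toEuclideanLin X).singularValues i) -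
    f ((Matrix.toEuclideanLin Y).singularValues i)|),
    sum_filter_range hk' (fun i => f ((Matrix.toEuclideanLin (X - Y)).singularValues i)), map_sub]
  exact miao (Matrix.toEuclideanLin X) (Matrix.toEuclideanLin Y) f hf h0 hn k
    (by simpa using hkm) (by simpa using hkn)

end Pool.Agent.H632.MC
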