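import Mathlib
set_option autoImplicit false

namespace Pool.Agent.H632.MC

open MeasureTheory Set in
theorem layer_key (x y t : ℝ) (hx0 : 0 ≤ x) (hy0 : 0 ≤ y) (hxt : x ≤ t) (hyt : y ≤ t) :
    IntegrableOn (fun τ : ℝ => if (y ≤ τ ∧ τ < x) ∨ (x ≤ τ ∧ τ < y) then (1 : ℝ) else 0) (Ico 0 t) ∧
    ∫ τ in Ico (0 : ℝ) t, (if (y ≤ τ ∧ τ < x) ∨ (x ≤ τ ∧ τ < y) then (1 : ℝ) else 0) = |x - y| := by
  have hg : (fun τ : ℝ => if (y ≤ τ ∧ τ < x) ∨ (x ≤ τ ∧ τ < y) then (1 : ℝ) else 0) =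
      (Ico (min x y) (max x y)).indicator (fun _ => (1 : ℝ)) := by
    funext τ
    rw [indicator_apply]
    have : ((y ≤ τ ∧ τ < x) ∨ (x ≤ τ ∧ τ < y)) ↔ τ ∈ Ico (min x y) (max x y) := by
      rw [mem_Ico]
      rcases le_total x y with h | h
      · rw [min_eq_left h, max_eq_right h]
        constructor
        · rintro (⟨h1, h2⟩ | h1)
          · exfalso; linarith
          · exact h1
        · intro h1; exact Or.inr h1
      · rw [min_eq_right h, max_eq_left h]
        constructor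
        · rintro (h1 | ⟨h1, h2⟩)
          · exact h1
          · exfalso; linarith
        · intro h1; exact Or.inl h1
    by_cases hc : τ ∈ Ico (min x y) (max x y)
    · rw [if_pos (this.mpr hc), if_pos hc]
    · rw [if_neg (fun h => hc (this.mp h)), if_neg hc]
  rw [hg]
  constructor
  · unfold IntegrableOn
    exact (integrable_const (1 : ℝ)).indicator measurableSet_Ico
  · rw [setIntegral_indicator measurableSet_Ico, setIntegral_const]
    have hs : Ico (0 : ℝ) t ∩ Ico (min x y) (max x y) = Ico (min x y) (max x y) := by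
      rw [inter_eq_right]
      exact Ico_subset_Ico (le_min hx0 hy0) (max_le hxt hyt)
    rw [hs, Real.volume_real_Ico_of_le min_le_max, max_sub_min_eq_abs', smul_eq_mul, mul_one]

theorem layer_cake (a b c : ℕ → ℝ) (t : ℝ) (r k : ℕ) (S : Finset ℕ) (ht : 0 ≤ t)
    (ha0 : ∀ i, 0 ≤ a i) (hb0 : ∀ i, 0 ≤ b i) (hc0 : ∀ i, 0 ≤ c i)
    (hat : ∀ i, a i ≤ t) (hbt : ∀ i, b i ≤ t) (hct : ∀ i, c i ≤ t)
    (h : ∀ τ : ℝ,
      ((Finset.range k).filter (fun i => (b i ≤ τ ∧ τ < a i) ∨ (a i ≤ τ ∧ τ < b i))).card ≤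
        r + (S.filter (fun i => (b i ≤ τ ∧ τ < c i) ∨ (c i ≤ τ ∧ τ < b i))).card) :
    ∑ i ∈ Finset.range k, |a i - b i| ≤ r * t + ∑ i ∈ S, |c i - b i| :=  by
  classical
  have e1 : ∑ i ∈ Finset.range k, |a i - b i| =
      ∫ τ in Set.Ico (0 : ℝ) t, ∑ i ∈ Finset.range k,
        (if (b i ≤ τ ∧ τ < a i) ∨ (a i ≤ τ ∧ τ < b i) then (1 : ℝ) else 0) := by
    rw [MeasureTheory.integral_finsetSum]
    · exact Finset.sum_congr rfl fun i _ =>
        (layer_key (a i) (b i) t (ha0 i) (hb0 i) (hat i) (hbt i)).2.symm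
    · intro i _
      exact (layer_key (a i) (b i) t (ha0 i) (hb0 i) (hat i) (hbt i)).1
  have e2 : r * t + ∑ i ∈ S, |c i - b i| =
      ∫ τ in Set.Ico (0 : ℝ) t, ((r : ℝ) + ∑ i ∈ S,
        (if (b i ≤ τ ∧ τ < c i) ∨ (c i ≤ τ ∧ τ < b i) then (1 : ℝ) else 0)) := by
    rw [MeasureTheory.integral_add, MeasureTheory.integral_finsetSum]
    · congr 1
      · rw [MeasureTheory.setIntegral_const, Real.volume_real_Ico_of_le ht, smul_eq_mul]
        ring
      · exact Finset.sum_congr rfl fun i _ =>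
          (layer_key (c i) (b i) t (hc0 i) (hb0 i) (hct i) (hbt i)).2.symm
    · intro i _
      exact (layer_key (c i) (b i) t (hc0 i) (hb0 i) (hct i) (hbt i)).1
    · exact MeasureTheory.integrable_const _
    · exact MeasureTheory.integrable_finsetSum _ fun i _ =>
        (layer_key (c i) (b i) t (hc0 i) (hb0 i) (hct i) (hbt i)).1
  rw [e1, e2]
  apply MeasureTheory.integral_mono
  · exact MeasureTheory.integrable_finsetSum _ fun i _ =>
        (layer_key (a i) (b i) t (ha0 i) (hb0 i) (hat i) (hbt i)).1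
  · exact (MeasureTheory.integrable_const _).add (MeasureTheory.integrable_finsetSum _ fun i _ =>
        (layer_key (c i) (b i) t (hc0 i) (hb0 i) (hct i) (hbt i)).1)
  · intro τ
    have h1 := h τ
    have h2 : (((Finset.range k).filter
        (fun i => (b i ≤ τ ∧ τ < a i) ∨ (a i ≤ τ ∧ τ < b i))).card : ℝ) ≤
        (r : ℝ) + ((S.filter (fun i => (b i ≤ τ ∧ τ < c i) ∨ (c i ≤ τ ∧ τ < b i))).card : ℝ) := by
      exact_mod_cast h1
    simp only [Finset.sum_boole]
    convert h2 using 2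

end Pool.Agent.H632.MC
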