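import Pool.Agent.H632.MC.Base
set_option autoImplicit false
open scoped InnerProductSpace
open Module

namespace Pool.Agent.H632.MC

variable {E : Type*} [NormedAddCommGroup E] [InnerProductSpace ℂ E] [FiniteDimensional ℂ E]




/-- TARGET 1: the positive part of `C - t` -/
theorem pos_part {n : ℕ} (hn : finrank ℂ E = n) {C : E →ₗ[ℂ] E} (hC : C.IsSymmetric) (t : ℝ) :
    ∃ P : E →ₗ[ℂ] E, P.IsSymmetric ∧ (∀ v, 0 ≤ (⟪v, P v⟫_ℂ).re) ∧
      (∀ v, (⟪v, C v⟫_ℂ).re ≤ (⟪v, P v⟫_ℂ).re + t * ‖v‖ ^ 2) ∧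
      (LinearMap.trace ℂ E P).re = ∑ j, max (hC.eigenvalues hn j - t) 0 := by
  classical
  set e := hC.eigenvectorBasis hn with he
  let p : Fin n → ℝ := fun j => max (hC.eigenvalues hn j - t) 0
  let P : E →ₗ[ℂ] E := ∑ j, ((p j : ℝ) : ℂ) • LinearMap.smulRight (innerₛₗ ℂ (e j)) (e j)
  have hP : ∀ v, P v = ∑ j, (((p j : ℝ) : ℂ) * ⟪e j, v⟫_ℂ) • e j := by
    intro v
    simp only [P, LinearMap.sum_apply, LinearMap.smul_apply, LinearMap.smulRight_apply,
      innerₛₗ_apply_apply, smul_smul]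
  have hform : ∀ v w, ⟪v, P w⟫_ℂ = ∑ j, ((p j : ℝ) : ℂ) * ⟪e j, w⟫_ℂ * ⟪v, e j⟫_ℂ := by
    intro v w
    rw [hP, inner_sum]
    refine Finset.sum_congr rfl fun j _ => ?_
    rw [inner_smul_right]
  have hform2 : ∀ v, (⟪v, P v⟫_ℂ).re = ∑ j, p j * ‖⟪e j, v⟫_ℂ‖ ^ 2 := by
    intro v
    rw [hform, Complex.re_sum]
    refine Finset.sum_congr rfl fun j _ => ?_
    have h1 : ⟪e j, v⟫_ℂ * ⟪v, e j⟫_ℂ = ((‖⟪e j, v⟫_ℂ‖ ^ 2 : ℝ) : ℂ) := by
      rw [← inner_conj_symm v (e j), Complex.mul_conj, Complex.normSq_eq_norm_sq]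
    rw [mul_assoc, h1, ← Complex.ofReal_mul, Complex.ofReal_re]
  refine ⟨P, ?_, ?_, ?_, ?_⟩
  · intro v w
    rw [hform, ← inner_conj_symm, hform, map_sum]
    refine Finset.sum_congr rfl fun j _ => ?_
    rw [map_mul, map_mul, Complex.conj_ofReal, inner_conj_symm, inner_conj_symm]
    ring
  · intro v
    rw [hform2]
    exact Finset.sum_nonneg fun j _ => mul_nonneg (le_max_right _ _) (by positivity)
  · intro v
    rw [hform2, form_expand hn hC v, norm_expand hn hC v, Finset.mul_sum, ← Finset.sum_add_distrib]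
    refine Finset.sum_le_sum fun j _ => ?_
    have : hC.eigenvalues hn j ≤ p j + t := by
      have := le_max_left (hC.eigenvalues hn j - t) 0
      simp only [p]; linarith
    have h2 : 0 ≤ ‖⟪e j, v⟫_ℂ‖ ^ 2 := by positivity
    rw [← add_mul]
    exact mul_le_mul_of_nonneg_right this h2
  · rw [LinearMap.trace_eq_sum_inner P e, Complex.re_sum]
    refine Finset.sum_congr rfl fun j _ => ?_
    rw [hform2]
    rw [Finset.sum_eq_single j]
    · have : ⟪e j, e j⟫_ℂ = 1 := by
        have := orthonormal_iff_ite.mp e.orthonormal j j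
        simpa using this
      rw [this]; simp [p]
    · intro i _ hij
      have : ⟪e i, e j⟫_ℂ = 0 := e.orthonormal.2 hij
      rw [this]; simp
    · intro h; exact absurd (Finset.mem_univ j) h

/-- TARGET 2: Lidskii's inequality (Li-Mathias form) -/
theorem lidskii {n : ℕ} (hn : finrank ℂ E = n) {A B : E →ₗ[ℂ] E} (hA : A.IsSymmetric)
    (hB : B.IsSymmetric) (hC : (A - B).IsSymmetric) (K : Finset (Fin n)) (t : ℝ) :
    ∑ i ∈ K, (hA.eigenvalues hn i - hB.eigenvalues hn i) ≤
      K.card * t + ∑ j, max (hC.eigenvalues hn j - t) 0 := by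
  classical
  obtain ⟨P, hP, hP0, hPC, hPt⟩ := pos_part hn hC t
  have hBP : (B + P).IsSymmetric := hB.add hP
  have h1 : ∀ i, hA.eigenvalues hn i ≤ hBP.eigenvalues hn i + t := by
    intro i
    apply ev_mono hn hA hBP t
    intro v
    have := hPC v
    simp only [LinearMap.sub_apply, LinearMap.add_apply, inner_sub_right, inner_add_right,
      Complex.sub_re, Complex.add_re] at this ⊢
    linarith
  have h2 : ∀ i, hB.eigenvalues hn i ≤ hBP.eigenvalues hn i := by
    intro i
    have := ev_mono hn hB hBP 0 (fun v => by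
      have := hP0 v
      simp only [LinearMap.add_apply, inner_add_right, Complex.add_re]
      linarith) i
    linarith
  have htr : ∑ i, (hBP.eigenvalues hn i - hB.eigenvalues hn i) = (LinearMap.trace ℂ E P).re := by
    rw [Finset.sum_sub_distrib]
    have e1 := hBP.re_trace_eq_sum_eigenvalues hn
    have e2 := hB.re_trace_eq_sum_eigenvalues hn
    rw [← e1, ← e2, map_add, map_add]
    simp
  calc ∑ i ∈ K, (hA.eigenvalues hn i - hB.eigenvalues hn i)
      ≤ ∑ i ∈ K, (t + (hBP.eigenvalues hn i - hB.eigenvalues hn i)) :=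
        Finset.sum_le_sum fun i _ => by linarith [h1 i]
    _ = K.card * t + ∑ i ∈ K, (hBP.eigenvalues hn i - hB.eigenvalues hn i) := by
        rw [Finset.sum_add_distrib, Finset.sum_const, nsmul_eq_mul]
    _ ≤ K.card * t + ∑ i, (hBP.eigenvalues hn i - hB.eigenvalues hn i) := by
        have := Finset.sum_le_univ_sum_of_nonneg (s := K)
          (f := fun i => hBP.eigenvalues hn i - hB.eigenvalues hn i)
          (fun i => by linarith [h2 i])
        linarith
    _ = K.card * t + ∑ j, max (hC.eigenvalues hn j - t) 0 := by rw [htr, hPt]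

end Pool.Agent.H632.MC
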