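import Pool.Agent.H632.MC.Lidskii
import Pool.Agent.H632.MC.Dil
set_option autoImplicit false
open scoped InnerProductSpace
open Module

namespace Pool.Agent.H632.MC

variable {E : Type*} [NormedAddCommGroup E] [InnerProductSpace ℂ E] [FiniteDimensional ℂ E]
variable {F : Type*} [NormedAddCommGroup F] [InnerProductSpace ℂ F] [FiniteDimensional ℂ F]






/-- TARGET: Mirsky's theorem for sets of indices below `min (dim E) (dim F)` -/
theorem mirsky (X Y : E →ₗ[ℂ] F) (k : ℕ) (hkE : k ≤ finrank ℂ E) (hkF : k ≤ finrank ℂ F)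
    (S : Finset ℕ) (hS : S ⊆ Finset.range k) :
    ∑ i ∈ S, |X.singularValues i - Y.singularValues i| ≤
      ∑ j ∈ Finset.range S.card, (X - Y).singularValues j := by
  classical
  rcases S.eq_empty_or_nonempty with rfl | hSne
  · simp
  obtain ⟨D, hD⟩ : ∃ D, finrank ℂ (WithLp 2 (E × F)) = D := ⟨_, rfl⟩
  have hDsum : D = finrank ℂ E + finrank ℂ F := by
    rw [← hD, (WithLp.linearEquiv 2 ℂ (E × F)).finrank_eq, Module.finrank_prod]
  obtain ⟨Z, hZ⟩ : ∃ Z, Z = X - Y := ⟨_, rfl⟩
  obtain ⟨p, hp⟩ : ∃ p, p = S.card := ⟨_, rfl⟩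
  have hp0 : 0 < p := by rw [hp]; exact hSne.card_pos
  have hpk : p ≤ k := by
    rw [hp]
    simpa using Finset.card_le_card hS
  have hD0 : 0 < D := by omega
  have hdil : dil X - dil Y = dil Z := by
    apply LinearMap.ext
    intro w
    rw [hZ]
    show WithLp.toLp 2 ((LinearMap.adjoint X) w.snd, X w.fst) -
      WithLp.toLp 2 ((LinearMap.adjoint Y) w.snd, Y w.fst) =
      WithLp.toLp 2 ((LinearMap.adjoint (X - Y)) w.snd, (X - Y) w.fst)
    rw [← WithLp.toLp_sub, map_sub]
    rfl
  have hC : (dil X - dil Y).IsSymmetric := by rw [hdil]; exact dil_symm Z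
  have hCeig : ∀ (T : WithLp 2 (E × F) →ₗ[ℂ] WithLp 2 (E × F)) (_ : T = dil Z)
      (hT : T.IsSymmetric), hT.eigenvalues hD = (dil_symm Z).eigenvalues hD := by
    rintro _ rfl _
    rfl
  have hCe := hCeig _ hdil hC
  obtain ⟨φ, hφ⟩ : ∃ φ : ℕ → Fin D, φ = fun i =>
      if Y.singularValues i ≤ X.singularValues i then ⟨i % D, Nat.mod_lt _ hD0⟩
      else ⟨D - 1 - i, by omega⟩ := ⟨_, rfl⟩
  have hik : ∀ i ∈ S, i < k := fun i hi => Finset.mem_range.1 (hS hi)
  have hφ1 : ∀ i (hi : i ∈ S), Y.singularValues i ≤ X.singularValues i →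
      φ i = ⟨i, by have := hik i hi; omega⟩ := by
    intro i hi h
    rw [hφ]
    simp only [if_pos h]
    apply Fin.ext
    exact Nat.mod_eq_of_lt (by have := hik i hi; omega)
  have hφ2 : ∀ i ∈ S, ¬ Y.singularValues i ≤ X.singularValues i →
      φ i = ⟨D - 1 - i, by omega⟩ := by
    intro i hi h
    rw [hφ]
    simp only [if_neg h]
  have hinj : Set.InjOn φ S := by
    intro i hi j hj hij
    have h1 := hik i hi
    have h2 := hik j hj
    by_cases hi' : Y.singularValues i ≤ X.singularValues i <;>
      by_cases hj' : Y.singularValues j ≤ X.singularValues j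
    · rw [hφ1 i hi hi', hφ1 j hj hj'] at hij
      exact congrArg Fin.val hij
    · rw [hφ1 i hi hi', hφ2 j hj hj'] at hij
      have := congrArg Fin.val hij
      simp only at this
      omega
    · rw [hφ2 i hi hi', hφ1 j hj hj'] at hij
      have := congrArg Fin.val hij
      simp only at this
      omega
    · rw [hφ2 i hi hi', hφ2 j hj hj'] at hij
      have := congrArg Fin.val hij
      simp only at this
      omega
  have hlid := lidskii hD (dil_symm X) (dil_symm Y) hC (S.image φ) (Z.singularValues (p - 1))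
  rw [Finset.sum_image hinj, Finset.card_image_of_injOn hinj, hCe] at hlid
  have hL : ∑ i ∈ S, ((dil_symm X).eigenvalues hD (φ i) - (dil_symm Y).eigenvalues hD (φ i)) =
      ∑ i ∈ S, |X.singularValues i - Y.singularValues i| := by
    refine Finset.sum_congr rfl fun i hi => ?_
    have h1 := hik i hi
    by_cases hi' : Y.singularValues i ≤ X.singularValues i
    · rw [hφ1 i hi hi', dil_eig X hD i (by omega), dil_eig Y hD i (by omega),
        abs_of_nonneg (by linarith)]
    · rw [hφ2 i hi hi', dil_eig_neg X hD i (by omega), dil_eig_neg Y hD i (by omega),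
        abs_of_neg (by linarith)]
      ring
  rw [hL] at hlid
  refine hlid.trans ?_
  rw [← hp, ← hZ]
  have hp1 : (dil_symm Z).eigenvalues hD ⟨p - 1, by omega⟩ = Z.singularValues (p - 1) :=
    dil_eig Z hD (p - 1) (by omega) _
  have hanti := (dil_symm Z).eigenvalues_antitone hD
  have hR : ∑ j : Fin D, max ((dil_symm Z).eigenvalues hD j - Z.singularValues (p - 1)) 0 =
      ∑ j : Fin D, (fun j : ℕ => if j < p then Z.singularValues j - Z.singularValues (p - 1)
        else 0) (j : ℕ) := by
    refine Finset.sum_congr rfl fun j _ => ?_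
    simp only
    by_cases hj : (j : ℕ) < p
    · rw [if_pos hj]
      have h1 : (dil_symm Z).eigenvalues hD j = Z.singularValues j :=
        dil_eig Z hD j (by omega) j.2
      have h2 : (dil_symm Z).eigenvalues hD ⟨p - 1, by omega⟩ ≤ (dil_symm Z).eigenvalues hD j :=
        hanti (show j ≤ ⟨p - 1, by omega⟩ from Fin.le_def.2 (by simp only; omega))
      rw [hp1] at h2
      rw [← h1, max_eq_left (by linarith)]
    · rw [if_neg hj]
      have h2 : (dil_symm Z).eigenvalues hD j ≤ (dil_symm Z).eigenvalues hD ⟨p - 1, by omega⟩ :=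
        hanti (show (⟨p - 1, by omega⟩ : Fin D) ≤ j from Fin.le_def.2 (by simp only; omega))
      rw [hp1] at h2
      rw [max_eq_right (by linarith)]
  rw [hR, Fin.sum_univ_eq_sum_range (fun j : ℕ =>
    if j < p then Z.singularValues j - Z.singularValues (p - 1) else 0) D, ← Finset.sum_filter]
  have hfil : (Finset.range D).filter (fun j => j < p) = Finset.range p := by
    ext j
    simp only [Finset.mem_filter, Finset.mem_range]
    omega
  rw [hfil, Finset.sum_sub_distrib, Finset.sum_const, Finset.card_range, nsmul_eq_mul]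
  linarith


end Pool.Agent.H632.MC
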