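import Pool.Agent.H632.MC.Base
set_option autoImplicit false
open scoped InnerProductSpace
open Module

namespace Pool.Agent.H632.MC

variable {E : Type*} [NormedAddCommGroup E] [InnerProductSpace ℂ E] [FiniteDimensional ℂ E]
variable {F : Type*} [NormedAddCommGroup F] [InnerProductSpace ℂ F] [FiniteDimensional ℂ F]




theorem norm_sq_26999 {n : ℕ} (hn : finrank ℂ E = n) (Z : E →ₗ[ℂ] F) (v : E) :
    ‖Z v‖ ^ 2 = ∑ j : Fin n, (Z.singularValues j) ^ 2 *
      ‖⟪Z.isSymmetric_adjoint_comp_self.eigenvectorBasis hn j, v⟫_ℂ‖ ^ 2 := by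
  have h1 := form_expand hn Z.isSymmetric_adjoint_comp_self v
  have h2 : (⟪v, (LinearMap.adjoint Z ∘ₗ Z) v⟫_ℂ).re = ‖Z v‖ ^ 2 := by
    rw [LinearMap.comp_apply, LinearMap.adjoint_inner_right, inner_self_eq_norm_sq_to_K]
    norm_cast
  rw [← h2, h1]
  apply Finset.sum_congr rfl
  intro j _
  rw [Z.sq_singularValues_fin hn j]

/-- TARGET: remove the `r` largest singular values by a perturbation of rank at most `r`. -/
theorem split_small (Z : E →ₗ[ℂ] F) (r : ℕ) (hr : r ≤ finrank ℂ E) :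
    ∃ (Z₁ : E →ₗ[ℂ] F) (φ : E →ₗ[ℂ] (Fin r → ℂ)),
      (∀ v, φ v = 0 → Z₁ v = Z v) ∧
      ∀ j, j + r < finrank ℂ E → Z₁.singularValues j ≤ Z.singularValues (j + r) := by
  obtain ⟨n, hn⟩ : ∃ n, finrank ℂ E = n := ⟨_, rfl⟩
  rw [hn] at hr
  set e := Z.isSymmetric_adjoint_comp_self.eigenvectorBasis hn with he
  set a : Fin r → E := fun l => e ⟨l.1, lt_of_lt_of_le l.2 hr⟩ with ha
  set φ : E →ₗ[ℂ] (Fin r → ℂ) := LinearMap.pi (fun l : Fin r => innerₛₗ ℂ (a l)) with hφ
  have hφa : ∀ v l, φ v l = ⟪a l, v⟫_ℂ := fun v l => rfl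
  set P : E →ₗ[ℂ] E := LinearMap.id -
    ∑ l : Fin r, (innerₛₗ ℂ (a l)).smulRight (a l) with hP
  have hPa : ∀ v, P v = v - ∑ l : Fin r, ⟪a l, v⟫_ℂ • a l := by
    intro v
    rw [hP, LinearMap.sub_apply, LinearMap.sum_apply, LinearMap.id_apply]
    rfl
  have hin : ∀ (i : Fin n) v, ⟪e i, P v⟫_ℂ = if i.1 < r then 0 else ⟪e i, v⟫_ℂ := by
    intro i v
    rw [hPa, inner_sub_right, inner_sum]
    have h1 : ∀ l : Fin r, ⟪e i, ⟪a l, v⟫_ℂ • a l⟫_ℂ =
        if i.1 = l.1 then ⟪a l, v⟫_ℂ else 0 := by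
      intro l
      rw [inner_smul_right, ha]
      have h2 := orthonormal_iff_ite.mp e.orthonormal i ⟨l.1, lt_of_lt_of_le l.2 hr⟩
      rw [h2]
      by_cases h3 : i.1 = l.1
      · rw [if_pos (Fin.ext h3), if_pos h3, mul_one]
      · rw [if_neg (fun h4 => h3 (congrArg Fin.val h4)), if_neg h3, mul_zero]
    rw [Finset.sum_congr rfl (fun l _ => h1 l)]
    by_cases hi : i.1 < r
    · rw [if_pos hi, Finset.sum_eq_single ⟨i.1, hi⟩]
      · rw [if_pos rfl]
        exact sub_self _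
      · intro l _ hl
        rw [if_neg]
        intro h5
        exact hl (Fin.ext h5.symm)
      · intro h5
        exact absurd (Finset.mem_univ _) h5
    · rw [if_neg hi, Finset.sum_eq_zero, sub_zero]
      intro l _
      rw [if_neg]
      intro h5
      exact hi (h5 ▸ l.2)
  refine ⟨Z ∘ₗ P, φ, ?_, ?_⟩
  · intro v hv
    rw [LinearMap.comp_apply, hPa]
    have h6 : ∑ l : Fin r, ⟪a l, v⟫_ℂ • a l = 0 := by
      apply Finset.sum_eq_zero
      intro l _
      rw [← hφa, hv, Pi.zero_apply, zero_smul]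
    rw [h6, sub_zero]
  · intro j hj
    rw [hn] at hj
    set b : Fin j → E := fun l => e ⟨l.1 + r, by have := l.2; omega⟩ with hb
    set φ₂ : E →ₗ[ℂ] (Fin j → ℂ) := LinearMap.pi (fun l : Fin j => innerₛₗ ℂ (b l)) with hφ₂
    have hφb : ∀ v l, φ₂ v l = ⟪b l, v⟫_ℂ := fun v l => rfl
    apply sv_le (Z ∘ₗ P) j φ₂ _ (Z.singularValues_nonneg _)
    intro v hv
    apply le_of_sq_le_sq _ (mul_nonneg (Z.singularValues_nonneg _) (norm_nonneg _))
    rw [LinearMap.comp_apply, norm_sq_26999 hn Z (P v), mul_pow,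
      norm_expand hn Z.isSymmetric_adjoint_comp_self v, Finset.mul_sum]
    apply Finset.sum_le_sum
    intro i _
    have h7 := hin i v
    rw [← he, h7]
    by_cases hi : i.1 < r
    · rw [if_pos hi, norm_zero]
      have : 0 ≤ (Z.singularValues (j + r)) ^ 2 * ‖⟪e i, v⟫_ℂ‖ ^ 2 := by positivity
      simpa using this
    · rw [if_neg hi]
      by_cases hi2 : i.1 < j + r
      · have h8 : ⟪e i, v⟫_ℂ = 0 := by
          have h9 := congrFun hv ⟨i.1 - r, by omega⟩
          rw [hφb, hb] at h9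
          have h10 : (⟨i.1 - r + r, by omega⟩ : Fin n) = i := Fin.ext (by show i.1 - r + r = i.1; omega)
          have h11 : ⟪e ⟨i.1 - r + r, by omega⟩, v⟫_ℂ = 0 := h9
          rw [h10] at h11
          exact h11
        rw [h8, norm_zero]
        simp
      · have h12 : Z.singularValues i.1 ≤ Z.singularValues (j + r) :=
          Z.singularValues_antitone (not_lt.mp hi2)
        have h13 := Z.singularValues_nonneg i.1
        gcongr

end Pool.Agent.H632.MC

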