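import Pool.Agent.H632.MC.Base
import Pool.Agent.H632.MC.Layer
import Pool.Agent.H632.MC.Split
import Pool.Agent.H632.MC.Mirsky
import Pool.Agent.H632.MC.Count
set_option autoImplicit false
open scoped InnerProductSpace
open Module

namespace Pool.Agent.H632.MC

variable {E : Type*} [NormedAddCommGroup E] [InnerProductSpace ℂ E] [FiniteDimensional ℂ E]
variable {F : Type*} [NormedAddCommGroup F] [InnerProductSpace ℂ F] [FiniteDimensional ℂ F]

theorem exists_cut (s : ℕ → ℝ) (hs : Antitone s) (t : ℝ) (k : ℕ) :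
    ∃ r ≤ k, (∀ i < r, t < s i) ∧ ∀ i, r ≤ i → i < k → s i ≤ t := by
  classical
  by_cases h : ∃ i < k, s i ≤ t
  · obtain ⟨i0, hi0, hi0'⟩ := h
    have hex : ∃ i, s i ≤ t := ⟨i0, hi0'⟩
    refine ⟨Nat.find hex, (Nat.find_min' hex hi0').trans hi0.le, ?_, ?_⟩
    · intro i hi
      exact not_le.mp (Nat.find_min hex hi)
    · intro i hi _
      exact (hs hi).trans (Nat.find_spec hex)
  · push Not at h
    exact ⟨k, le_rfl, h, fun i hi hik => absurd hik (not_lt.mpr hi)⟩

theorem abs_min_sub_min_le' (x y t : ℝ) : |min x t - min y t| ≤ |x - y| := by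
  have := abs_min_sub_min_le_max x t y t
  simpa using this

theorem trunc (X Y : E →ₗ[ℂ] F) (k : ℕ) (hkE : k ≤ finrank ℂ E) (hkF : k ≤ finrank ℂ F)
    (t : ℝ) (ht : 0 ≤ t) :
    ∑ i ∈ Finset.range k, |min (X.singularValues i) t - min (Y.singularValues i) t| ≤
      ∑ i ∈ Finset.range k, min ((X - Y).singularValues i) t := by
  classical
  obtain ⟨Z, hZ⟩ : ∃ Z, Z = X - Y := ⟨_, rfl⟩
  rw [← hZ]
  obtain ⟨r, hrk, hr1, hr2⟩ := exists_cut (fun i => Z.singularValues i) Z.singularValues_antitone t k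
  obtain ⟨Z₁, φ, hφ, hZ₁⟩ := split_small Z r (hrk.trans hkE)
  obtain ⟨Y₁, hY₁⟩ : ∃ Y₁, Y₁ = Y + Z₁ := ⟨_, rfl⟩
  have hXY : ∀ v, φ v = 0 → X v = Y₁ v := by
    intro v hv
    rw [hY₁, LinearMap.add_apply, hφ v hv, hZ, LinearMap.sub_apply]
    abel
  have hmono : Monotone (fun x : ℝ => min x t) := fun x y hxy => min_le_min_right t hxy
  have hanti : ∀ W : E →ₗ[ℂ] F, Antitone (fun i => min (W.singularValues i) t) :=
    fun W i j hij => hmono (W.singularValues_antitone hij)
  obtain ⟨S, hSk, hSc, hcount⟩ := count_pointwise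
    (fun i => min (X.singularValues i) t) (fun i => min (Y.singularValues i) t)
    (fun i => min (Y₁.singularValues i) t) r k (hanti X) (hanti Y) (hanti Y₁)
    (fun i => hmono (sv_interlace X Y₁ r φ hXY i))
    (fun i => hmono (sv_interlace Y₁ X r φ (fun v hv => (hXY v hv).symm) i)) hrk
  have hlayer := layer_cake
    (fun i => min (X.singularValues i) t) (fun i => min (Y.singularValues i) t)
    (fun i => min (Y₁.singularValues i) t) t r k S ht
    (fun i => le_min (X.singularValues_nonneg i) ht)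
    (fun i => le_min (Y.singularValues_nonneg i) ht)
    (fun i => le_min (Y₁.singularValues_nonneg i) ht)
    (fun i => min_le_right _ _) (fun i => min_le_right _ _) (fun i => min_le_right _ _) hcount
  refine hlayer.trans ?_
  have hdiff : Y₁ - Y = Z₁ := by rw [hY₁]; abel
  have hmir := mirsky Y₁ Y k hkE hkF S hSk
  rw [hdiff] at hmir
  have h1 : ∑ i ∈ S, |min (Y₁.singularValues i) t - min (Y.singularValues i) t| ≤
      ∑ i ∈ S, |Y₁.singularValues i - Y.singularValues i| :=
    Finset.sum_le_sum fun i _ => abs_min_sub_min_le' _ _ _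
  have h2 : ∑ j ∈ Finset.range S.card, Z₁.singularValues j ≤
      ∑ j ∈ Finset.range (k - r), Z₁.singularValues j :=
    Finset.sum_le_sum_of_subset_of_nonneg (Finset.range_mono hSc)
      (fun j _ _ => Z₁.singularValues_nonneg j)
  have h3 : ∑ j ∈ Finset.range (k - r), Z₁.singularValues j ≤
      ∑ j ∈ Finset.range (k - r), min (Z.singularValues (r + j)) t := by
    refine Finset.sum_le_sum fun j hj => ?_
    rw [Finset.mem_range] at hj
    rw [min_eq_left (hr2 (r + j) (by omega) (by omega)), add_comm r j]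
    exact hZ₁ j (by omega)
  have h4 : ∑ i ∈ Finset.range k, min (Z.singularValues i) t =
      r * t + ∑ j ∈ Finset.range (k - r), min (Z.singularValues (r + j)) t := by
    have hk : k = r + (k - r) := by omega
    conv_lhs => rw [hk]
    rw [Finset.sum_range_add]
    congr 1
    rw [Finset.sum_congr rfl (fun i hi => min_eq_right (hr1 i (Finset.mem_range.mp hi)).le)]
    simp
  rw [h4]
  linarith

end Pool.Agent.H632.MC
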